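import Pool.Agent.R185.SymFew
import Pool.Agent.T2H61.FC4.Abel

/-!
# Monochromatic symmetric subsets of infinite groups: four colours

Every colouring of an infinite group with at most four colours has finite monochromatic symmetric
subsets `A = g A⁻¹ g` of every finite size.

Let `G` be a group with a colouring with `k` colours without large finite monochromatic symmetric
subsets.  Then the elements of `G` with finitely many conjugates form a finite normal subgroup `F`
which contains all involutions of `G`, and all elements of `G / F` have order at most `k`. An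
infinite group with element orders at most four has an infinite abelian subgroup (elementary proof
in `Pool.Agent.T2H61.FC4`), and the question is settled for groups with infinite subgroups which
are abelian modulo a finite normal subgroup.
-/

set_option autoImplicit false

namespace Pool.Agent.Results.MP_76c039_co.FourColours

open Pool.Agent.H46R2.SY Pool.Agent.R185.SymEq

/-- every `k`-colouring has finite monochromatic symmetric subsets of every size -/
def HasSymmetric (G : Type) [Group G] (k : ℕ) : Prop :=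
  ∀ (c : G → Fin k) (n : ℕ), ∃ (A : Finset G) (g : G), n ≤ A.card ∧
    (∀ a ∈ A, ∀ b ∈ A, c a = c b) ∧ (A : Set G) = (fun x => g * x⁻¹ * g) '' (A : Set G)

/-- every element of `G` has order at most `k` -/
def OrdersAtMost (G : Type) [Group G] (k : ℕ) : Prop :=
  ∀ x : G, ∃ j : ℕ, 1 ≤ j ∧ j ≤ k ∧ x ^ j = 1

/-- `x` has finitely many conjugates in `G` -/
def FinitelyManyConjugates {G : Type} [Group G] (x : G) : Prop :=
  (Set.range fun g : G => g * x * g⁻¹).Finite

theorem fmc_iff {G : Type} [Group G] (x : G) :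
    FinitelyManyConjugates x ↔ (Subgroup.centralizer ({x} : Set G)).index ≠ 0 := by
  rw [Subgroup.index_ne_zero_iff_finite]
  have key : ∀ g h : G, g * x * g⁻¹ = h * x * h⁻¹ ↔ g⁻¹ * h ∈ Subgroup.centralizer ({x} : Set G) := by
    intro g h
    rw [Subgroup.mem_centralizer_singleton_iff]
    constructor
    · intro he
      calc g⁻¹ * h * x = g⁻¹ * (h * x * h⁻¹) * h := by group
        _ = g⁻¹ * (g * x * g⁻¹) * h := by rw [he]
        _ = x * (g⁻¹ * h) := by group
    · intro he
      calc g * x * g⁻¹ = g * (x * (g⁻¹ * h)) * h⁻¹ := by group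
        _ = g * (g⁻¹ * h * x) * h⁻¹ := by rw [he]
        _ = h * x * h⁻¹ := by group
  constructor
  · intro hf
    have : Finite (Set.range fun g : G => g * x * g⁻¹) := hf.to_subtype
    refine Finite.of_surjective (fun r : Set.range fun g : G => g * x * g⁻¹ =>
      (QuotientGroup.mk r.2.choose : G ⧸ Subgroup.centralizer ({x} : Set G))) ?_
    intro q
    obtain ⟨g, rfl⟩ := QuotientGroup.mk_surjective q
    refine ⟨⟨g * x * g⁻¹, g, rfl⟩, ?_⟩
    have h1 : ∃ y : G, (fun g : G => g * x * g⁻¹) y = g * x * g⁻¹ := ⟨g, rfl⟩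
    exact QuotientGroup.eq.2 ((key _ _).1 h1.choose_spec)
  · intro hf
    refine (Set.finite_range (fun q : G ⧸ Subgroup.centralizer ({x} : Set G) =>
      q.out * x * (q.out)⁻¹)).subset ?_
    rintro _ ⟨g, rfl⟩
    refine ⟨QuotientGroup.mk g, ?_⟩
    refine (key _ _).2 ?_
    rw [← QuotientGroup.eq]
    exact QuotientGroup.out_eq' _

theorem structure_of_failure {G : Type} [Group G] (k : ℕ) (h : ¬ HasSymmetric G k) :
    ∃ F : Subgroup G, F.Normal ∧ (F : Set G).Finite ∧ (∀ x : G, x ∈ F ↔ FinitelyManyConjugates x) ∧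
      (∀ x : G, x * x = 1 → x ∈ F) ∧ ∀ x : G, ∃ j : ℕ, 1 ≤ j ∧ j ≤ k ∧ x ^ j ∈ F := by
  obtain ⟨F, hF⟩ := t_FC G
  have hF' : ∀ x : G, x ∈ F ↔ FinitelyManyConjugates x := fun x => (hF x).trans (fmc_iff x).symm
  have hfin : (F : Set G).Finite := by
    by_contra hinf
    exact h fun c n => fc_infinite F (fun x hx => (hF x).1 hx) hinf k c n
  have hinv : {x : G | x * x = 1}.Finite := by
    by_contra hinf
    exact h fun c n => Pool.Agent.R185.SymCol.of_involutions hinf k c n
  have hinvF : ∀ x : G, x * x = 1 → x ∈ F := by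
    intro x hx
    rw [hF']
    refine hinv.subset ?_
    rintro _ ⟨g, rfl⟩
    show g * x * g⁻¹ * (g * x * g⁻¹) = 1
    calc g * x * g⁻¹ * (g * x * g⁻¹) = g * (x * x) * g⁻¹ := by group
      _ = 1 := by rw [hx]; group
  refine ⟨F, ⟨fun x hx g => ?_⟩, hfin, hF', hinvF, ?_⟩
  · rw [hF'] at hx ⊢
    refine hx.subset ?_
    rintro _ ⟨y, rfl⟩
    exact ⟨y * g, by group⟩
  · intro a
    by_contra hcon
    push Not at hcon
    apply h
    intro c n
    refine per_k_suff k ?_ c n
    intro f
    obtain ⟨i, j, hij, hf⟩ : ∃ i j : Fin (k + 1), i < j ∧ f (a ^ (2 * (i : ℕ))) = f (a ^ (2 * (j : ℕ))) := by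
      obtain ⟨i, j, hne, hf⟩ := Fintype.exists_ne_map_eq_of_card_lt
        (fun i : Fin (k + 1) => f (a ^ (2 * (i : ℕ)))) (by simp)
      rcases lt_or_gt_of_ne hne with h1 | h1
      · exact ⟨i, j, h1, hf⟩
      · exact ⟨j, i, h1, hf.symm⟩
    have hlt : (i : ℕ) < j := hij
    have hjk : (j : ℕ) ≤ k := Nat.lt_succ_iff.1 j.2
    have hnF := hcon ((j : ℕ) - i) (by omega) (by omega)
    have hpow : (a ^ (2 * (i : ℕ)))⁻¹ * a ^ (2 * (j : ℕ)) = a ^ ((j : ℕ) - i) * a ^ ((j : ℕ) - i) := by
      rw [inv_mul_eq_iff_eq_mul, ← pow_add, ← pow_add]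
      congr 1
      omega
    refine ⟨a ^ (2 * (i : ℕ)), a ^ (2 * (j : ℕ)), a ^ ((j : ℕ) - i), ?_, hf, hpow, ?_⟩
    · intro he
      apply hnF
      apply hinvF
      rw [← hpow, he]
      group
    · by_contra hne
      exact hnF ((hF _).2 hne)

theorem of_abelian {G : Type} [Group G] (A : Subgroup G) (hA : (A : Set G).Infinite)
    (F : Subgroup G) (hF : (F : Set G).Finite) (hc : ∀ x ∈ A, ∀ y ∈ A, y * x * y⁻¹ * x⁻¹ ∈ F) : HasSym G := by
  have : Infinite A := hA.to_subtype
  obtain ⟨T, hT, hcomm⟩ := set_comm (G := A) (fun x => by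
    rw [← fmc_iff]
    have h1 : ((fun g : G => g * (x : G)) '' (F : Set G)).Finite := hF.image _
    refine Set.Finite.of_finite_image (f := fun y : A => (y : G)) (h1.subset ?_) (by
      intro a _ b _ hab
      exact Subtype.ext hab)
    rintro _ ⟨_, ⟨g, rfl⟩, rfl⟩
    exact ⟨_, hc x x.2 g g.2, by simp⟩)
  refine comm_case ((fun x : A => (x : G)) '' T) (hT.image (fun a _ b _ hab => Subtype.ext hab)) ?_
  rintro _ ⟨a, ha, rfl⟩ _ ⟨b, hb, rfl⟩
  exact congrArg Subtype.val (hcomm a ha b hb)

theorem conditional (k : ℕ) (hk : ∀ (Q : Type) [Group Q] [Infinite Q], OrdersAtMost Q k →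
    ∃ A : Subgroup Q, (A : Set Q).Infinite ∧ ∀ x ∈ A, ∀ y ∈ A, x * y = y * x)
    (G : Type) [Group G] [Infinite G] : HasSymmetric G k := by
  by_contra hcon
  obtain ⟨F, hn, hfin, -, -, hord⟩ := structure_of_failure k hcon
  have := hn
  have : Finite F := hfin.to_subtype
  have : Infinite (G ⧸ F) := by
    by_contra hnot
    have : Finite (G ⧸ F) := not_infinite_iff_finite.1 hnot
    have : Finite G := Finite.of_equiv _ (Subgroup.groupEquivQuotientProdSubgroup (s := F)).symm
    exact not_finite G
  obtain ⟨A, hA, hAc⟩ := hk (G ⧸ F) (by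
    intro x
    obtain ⟨g, rfl⟩ := QuotientGroup.mk_surjective x
    obtain ⟨j, h1, h2, h3⟩ := hord g
    exact ⟨j, h1, h2, by
      rw [← QuotientGroup.mk_pow]
      exact (QuotientGroup.eq_one_iff _).2 h3⟩)
  apply hcon
  intro c n
  refine of_abelian (A.comap (QuotientGroup.mk' F)) ?_ F hfin ?_ k c n
  · intro hf
    apply hA
    refine (hf.image (QuotientGroup.mk' F)).subset ?_
    intro x hx
    obtain ⟨g, rfl⟩ := QuotientGroup.mk_surjective x
    exact ⟨g, hx, rfl⟩
  · intro x hx y hy
    rw [← QuotientGroup.eq_one_iff]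
    have h1 := hAc _ hx _ hy
    simp only [QuotientGroup.mk'_apply] at h1
    rw [QuotientGroup.mk_mul, QuotientGroup.mk_mul, QuotientGroup.mk_mul, QuotientGroup.mk_inv,
      QuotientGroup.mk_inv, ← h1]
    group

/-- **Theorem.** (1) Every colouring of every infinite group with at most four colours has finite
monochromatic symmetric subsets of every size.
(2) For every number `k` of colours: if some `k`-colouring of `G` has no finite monochromatic
symmetric subsets of some size, then the elements with finitely many conjugates form a finite normal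
subgroup `F`, which contains all `x` with `x² = 1`, and all elements of `G / F` have order at most
`k`.
(3) If every infinite group with element orders at most `k` has an infinite abelian subgroup, then
all `k`-colourings of all infinite groups have large finite monochromatic symmetric subsets. -/
theorem result :
    (∀ k : ℕ, k ≤ 4 → ∀ (G : Type) [Group G] [Infinite G], HasSymmetric G k) ∧
    (∀ (G : Type) [Group G] (k : ℕ), ¬ HasSymmetric G k →
      ∃ F : Subgroup G, F.Normal ∧ (F : Set G).Finite ∧ (∀ x : G, x ∈ F ↔ FinitelyManyConjugates x) ∧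
        (∀ x : G, x * x = 1 → x ∈ F) ∧ ∀ x : G, ∃ j : ℕ, 1 ≤ j ∧ j ≤ k ∧ x ^ j ∈ F) ∧
    (∀ k : ℕ, (∀ (Q : Type) [Group Q] [Infinite Q], OrdersAtMost Q k →
        ∃ A : Subgroup Q, (A : Set Q).Infinite ∧ ∀ x ∈ A, ∀ y ∈ A, x * y = y * x) →
      ∀ (G : Type) [Group G] [Infinite G], HasSymmetric G k) := by
  refine ⟨fun k hk G _ _ => conditional k (fun Q _ _ hQ => ?_) G,
    fun G _ k h => structure_of_failure k h, fun k hk G _ _ => conditional k hk G⟩
  refine Pool.Agent.T2H61.FC4.infinite_abelian fun x => ?_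
  obtain ⟨j, h1, h2, h3⟩ := hQ x
  exact ⟨j, h1, h2.trans hk, h3⟩

end Pool.Agent.Results.MP_76c039_co.FourColours
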