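import Pool.Agent.R185.SymFew
import Pool.Agent.T2H61.FC6.Abel

/-!
# Monochromatic symmetric subsets of infinite groups: element orders `2^i` and `3 * 2^i`

Let `G` be an infinite group such that every element `x` has a power `x ^ (3 * 2 ^ i)` with finitely
many conjugates; for example, an infinite group all of whose elements have order `2^i` or `3 * 2^i`
(groups of exponent `8`, `12`, `24`, ..., which need not be locally finite as far as is known). Then
every colouring of `G` with finitely many colours has finite monochromatic symmetric subsets of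
every size. The group has an infinite set of commuting elements.
-/

set_option autoImplicit false

namespace Pool.Agent.Results.MP_76c039_co.TwoThreeOrders

open Pool.Agent.H46R2.SY Pool.Agent.R185.SymEq

/-- every colouring with finitely many colours has finite monochromatic symmetric subsets of every
size -/
def HasSymmetric (G : Type) [Group G] : Prop :=
  ∀ (k : ℕ) (c : G → Fin k) (n : ℕ), ∃ (A : Finset G) (g : G), n ≤ A.card ∧
    (∀ a ∈ A, ∀ b ∈ A, c a = c b) ∧ (A : Set G) = (fun x => g * x⁻¹ * g) '' (A : Set G)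

/-- `x` has finitely many conjugates in `G` -/
def FinitelyManyConjugates {G : Type} [Group G] (x : G) : Prop :=
  (Set.range fun g : G => g * x * g⁻¹).Finite

theorem fmc_iff {G : Type} [Group G] (x : G) :
    FinitelyManyConjugates x ↔ (Subgroup.centralizer ({x} : Set G)).index ≠ 0 := by
  rw [Subgroup.index_ne_zero_iff_finite]
  have key : ∀ g h : G, g * x * g⁻¹ = h * x * h⁻¹ ↔ g⁻¹ * h ∈ Subgroup.centralizer ({x} : Set G) := by
    intro g h
    rw [Subgroup.mem_centralizer_singleton_iff]
    constructor
    · intro he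
      calc g⁻¹ * h * x = g⁻¹ * (h * x * h⁻¹) * h := by group
        _ = g⁻¹ * (g * x * g⁻¹) * h := by rw [he]
        _ = x * (g⁻¹ * h) := by group
    · intro he
      calc g * x * g⁻¹ = g * (x * (g⁻¹ * h)) * h⁻¹ := by group
        _ = g * (g⁻¹ * h * x) * h⁻¹ := by rw [he]
        _ = h * x * h⁻¹ := by group
  constructor
  · intro hf
    have : Finite (Set.range fun g : G => g * x * g⁻¹) := hf.to_subtype
    refine Finite.of_surjective (fun r : Set.range fun g : G => g * x * g⁻¹ =>
      (QuotientGroup.mk r.2.choose : G ⧸ Subgroup.centralizer ({x} : Set G))) ?_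
    intro q
    obtain ⟨g, rfl⟩ := QuotientGroup.mk_surjective q
    refine ⟨⟨g * x * g⁻¹, g, rfl⟩, ?_⟩
    have h1 : ∃ y : G, (fun g : G => g * x * g⁻¹) y = g * x * g⁻¹ := ⟨g, rfl⟩
    exact QuotientGroup.eq.2 ((key _ _).1 h1.choose_spec)
  · intro hf
    refine (Set.finite_range (fun q : G ⧸ Subgroup.centralizer ({x} : Set G) =>
      q.out * x * (q.out)⁻¹)).subset ?_
    rintro _ ⟨g, rfl⟩
    refine ⟨QuotientGroup.mk g, ?_⟩
    refine (key _ _).2 ?_
    rw [← QuotientGroup.eq]
    exact QuotientGroup.out_eq' _

/-- an infinite subgroup which is abelian modulo a finite set has an infinite commuting set -/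
theorem of_abelian {G : Type} [Group G] (A : Subgroup G) (hA : (A : Set G).Infinite)
    (F : Subgroup G) (hF : (F : Set G).Finite) (hc : ∀ x ∈ A, ∀ y ∈ A, y * x * y⁻¹ * x⁻¹ ∈ F) :
    ∃ T : Set G, T.Infinite ∧ ∀ x ∈ T, ∀ y ∈ T, x * y = y * x := by
  have : Infinite A := hA.to_subtype
  obtain ⟨T, hT, hcomm⟩ := set_comm (G := A) (fun x => by
    rw [← fmc_iff]
    have h1 : ((fun g : G => g * (x : G)) '' (F : Set G)).Finite := hF.image _
    refine Set.Finite.of_finite_image (f := fun y : A => (y : G)) (h1.subset ?_) (by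
      intro a _ b _ hab
      exact Subtype.ext hab)
    rintro _ ⟨_, ⟨g, rfl⟩, rfl⟩
    exact ⟨_, hc x x.2 g g.2, by simp⟩)
  refine ⟨(fun x : A => (x : G)) '' T, hT.image (fun a _ b _ hab => Subtype.ext hab), ?_⟩
  rintro _ ⟨a, ha, rfl⟩ _ ⟨b, hb, rfl⟩
  exact congrArg Subtype.val (hcomm a ha b hb)

/-- **Theorem.** (1) Let `G` be an infinite group such that for every `x` some power
`x ^ (3 * 2 ^ i)` has finitely many conjugates. Then every finite colouring of `G` has finite
monochromatic symmetric subsets of every size.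
(2) An infinite group all of whose elements have order `2 ^ i` or `3 * 2 ^ i` has an infinite abelian
subgroup, and (1) holds for it. -/
theorem result :
    (∀ (G : Type) [Group G] [Infinite G], (∀ x : G, ∃ i : ℕ, FinitelyManyConjugates (x ^ (3 * 2 ^ i))) →
      HasSymmetric G) ∧
    (∀ (G : Type) [Group G] [Infinite G], (∀ x : G, ∃ i : ℕ, x ^ (3 * 2 ^ i) = 1) →
      (∃ A : Subgroup G, (A : Set G).Infinite ∧ ∀ x ∈ A, ∀ y ∈ A, x * y = y * x) ∧ HasSymmetric G) := by
  have main : ∀ (G : Type) [Group G] [Infinite G],
      (∀ x : G, ∃ i : ℕ, FinitelyManyConjugates (x ^ (3 * 2 ^ i))) → HasSymmetric G := by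
    intro G _ _ h
    obtain ⟨F, hF⟩ := t_FC G
    have hF' : ∀ x : G, x ∈ F ↔ FinitelyManyConjugates x := fun x => (hF x).trans (fmc_iff x).symm
    by_cases hfin : (F : Set G).Finite
    · have hn : F.Normal := ⟨fun x hx g => by
        rw [hF'] at hx ⊢
        refine hx.subset ?_
        rintro _ ⟨y, rfl⟩
        exact ⟨y * g, by group⟩⟩
      have : Finite F := hfin.to_subtype
      have : Infinite (G ⧸ F) := by
        by_contra hnot
        have : Finite (G ⧸ F) := not_infinite_iff_finite.1 hnot
        have : Finite G := Finite.of_equiv _ (Subgroup.groupEquivQuotientProdSubgroup (s := F)).symm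
        exact not_finite G
      obtain ⟨A, hA, hAc⟩ := Pool.Agent.T2H61.FC6.infinite_abelian (Q := G ⧸ F) (by
        intro x
        obtain ⟨g, rfl⟩ := QuotientGroup.mk_surjective x
        obtain ⟨j, h3⟩ := h g
        exact ⟨j, by
          rw [← QuotientGroup.mk_pow]
          exact (QuotientGroup.eq_one_iff _).2 ((hF' _).2 h3)⟩)
      obtain ⟨T, hT, hTc⟩ := of_abelian (A.comap (QuotientGroup.mk' F)) (by
        intro hf
        apply hA
        refine (hf.image (QuotientGroup.mk' F)).subset ?_
        intro x hx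
        obtain ⟨g, rfl⟩ := QuotientGroup.mk_surjective x
        exact ⟨g, hx, rfl⟩) F hfin (by
        intro x hx y hy
        rw [← QuotientGroup.eq_one_iff]
        have h1 := hAc _ hx _ hy
        simp only [QuotientGroup.mk'_apply] at h1
        rw [QuotientGroup.mk_mul, QuotientGroup.mk_mul, QuotientGroup.mk_mul, QuotientGroup.mk_inv,
          QuotientGroup.mk_inv, ← h1]
        group)
      exact comm_case T hT hTc
    · exact fc_infinite F (fun x hx => (hF x).1 hx) hfin
  refine ⟨fun G _ _ h => main G h, fun G _ _ h => ⟨Pool.Agent.T2H61.FC6.infinite_abelian h, main G fun x => ?_⟩⟩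
  obtain ⟨i, hi⟩ := h x
  refine ⟨i, ?_⟩
  unfold FinitelyManyConjugates
  rw [hi]
  simp

end Pool.Agent.Results.MP_76c039_co.TwoThreeOrders
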